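import Pool.Agent.P8H81.LP.Stm2

/-!
# Project LPB, package SUPP: upper bound of the energy
-/

set_option autoImplicit false

open MeasureTheory ProbabilityTheory Filter Finset

namespace Pool.Agent.P8H83.LPB

open Pool.Agent.P8H81.LP

lemma harm_le (N : ℕ) (hN : 3 ≤ N) : ∑ n ∈ Icc 1 N, (1 / (n : ℝ)) ≤ 2 * Real.log N := by
  have h1 : 1 ≤ Real.log N := by
    rw [Real.le_log_iff_exp_le (by positivity)]
    have h2 := Real.exp_one_lt_d9
    have h3 : (3 : ℝ) ≤ N := by exact_mod_cast hN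
    linarith
  have h4 := harmonic_le_one_add_log N
  rw [harmonic_eq_sum_Icc] at h4
  push_cast at h4
  have h5 : ∑ n ∈ Icc 1 N, (1 / (n : ℝ)) = ∑ n ∈ Icc 1 N, ((n : ℝ))⁻¹ :=
    Finset.sum_congr rfl fun n _ => one_div _
  rw [h5]
  linarith

theorem supp : S_SUPP := by
  intro a ha B hB
  refine ⟨8 * (B : ℝ) ^ 2 * 2 ^ (a + 1), max 3 (4 * B), by positivity, fun N hN => ?_⟩
  have hN3 : 3 ≤ N := le_trans (le_max_left _ _) hN
  have hNB : 4 * B ≤ N := le_trans (le_max_right _ _) hN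
  have hN0 : (0 : ℝ) < N := by
    have : 0 < N := by omega
    exact_mod_cast this
  have hNB' : 4 * (B : ℝ) ≤ N := by exact_mod_cast hNB
  have hB' : (1 : ℝ) ≤ B := by exact_mod_cast hB
  have hN1 : (1 : ℝ) ≤ N := by linarith
  have hL0 : 0 ≤ Real.log N := Real.log_nonneg hN1
  have hL1 : 0 < Real.log N := Real.log_pos (by linarith)
  have hterm : ∀ n ∈ Icc 1 N, (1 / (n : ℝ)) ^ 2 * ((rad B n : ℝ) ^ 2 *
      (Real.log (2 + rad B n)) ^ (a + 1)) ≤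
      (4 * (B : ℝ) ^ 2 * (2 * Real.log N) ^ (a + 1)) * (1 / (n : ℝ)) := by
    intro n hn
    obtain ⟨hn1, hnN⟩ := Finset.mem_Icc.1 hn
    have hn0 : (0 : ℝ) < n := by exact_mod_cast hn1
    have hn1' : (1 : ℝ) ≤ n := by exact_mod_cast hn1
    have hnN' : (n : ℝ) ≤ N := by exact_mod_cast hnN
    have hrad : (rad B n : ℝ) = B * ((Nat.sqrt n : ℝ) + 1) := by
      rw [rad]
      push_cast
      ring
    have hs : (Nat.sqrt n : ℝ) + 1 ≤ 2 * √(n : ℝ) := by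
      have h1 : (Nat.sqrt n : ℝ) ≤ √(n : ℝ) := Real.nat_sqrt_le_real_sqrt
      have h2 : 1 ≤ √(n : ℝ) := Real.one_le_sqrt.2 hn1'
      linarith
    have hs2 : ((Nat.sqrt n : ℝ) + 1) ^ 2 ≤ 4 * n := by
      have h3 : ((Nat.sqrt n : ℝ) + 1) ^ 2 ≤ (2 * √(n : ℝ)) ^ 2 := pow_le_pow_left₀ (by positivity) hs 2
      have h4 : (2 * √(n : ℝ)) ^ 2 = 4 * n := by
        rw [mul_pow, Real.sq_sqrt hn0.le]
        norm_num
      linarith
    have hr2 : (rad B n : ℝ) ^ 2 ≤ 4 * (B : ℝ) ^ 2 * n := by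
      rw [hrad, mul_pow]
      have h5 : 0 ≤ (B : ℝ) ^ 2 := by positivity
      nlinarith [mul_le_mul_of_nonneg_left hs2 h5]
    have hsn : (Nat.sqrt n : ℝ) ≤ n := by exact_mod_cast Nat.sqrt_le_self n
    have hr1 : 2 + (rad B n : ℝ) ≤ (N : ℝ) ^ 2 := by
      rw [hrad]
      have h6 : (Nat.sqrt n : ℝ) + 1 ≤ 2 * N := by linarith
      have h7 : (B : ℝ) * ((Nat.sqrt n : ℝ) + 1) ≤ B * (2 * N) :=
        mul_le_mul_of_nonneg_left h6 (by linarith)
      have h8 : 4 * (B : ℝ) * N ≤ N * N := mul_le_mul_of_nonneg_right hNB' hN0.le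
      have h9 : (1 : ℝ) * 1 ≤ B * N := mul_le_mul hB' hN1 zero_le_one (by linarith)
      nlinarith
    have hr0 : (0 : ℝ) ≤ rad B n := Nat.cast_nonneg _
    have hlog0 : 0 ≤ Real.log (2 + rad B n) := Real.log_nonneg (by linarith)
    have hlog1 : Real.log (2 + rad B n) ≤ 2 * Real.log N := by
      have h10 : Real.log (2 + rad B n) ≤ Real.log ((N : ℝ) ^ 2) :=
        Real.log_le_log (by linarith) hr1
      rwa [Real.log_pow, Nat.cast_two] at h10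
    have hpow : (Real.log (2 + rad B n)) ^ (a + 1) ≤ (2 * Real.log N) ^ (a + 1) :=
      Real.rpow_le_rpow hlog0 hlog1 (by linarith)
    have hp0 : 0 ≤ (2 * Real.log N) ^ (a + 1) := Real.rpow_nonneg (by linarith) _
    have h11 : (rad B n : ℝ) ^ 2 * (Real.log (2 + rad B n)) ^ (a + 1) ≤
        (4 * (B : ℝ) ^ 2 * n) * (2 * Real.log N) ^ (a + 1) :=
      mul_le_mul hr2 hpow (Real.rpow_nonneg hlog0 _) (by positivity)
    calc (1 / (n : ℝ)) ^ 2 * ((rad B n : ℝ) ^ 2 * (Real.log (2 + rad B n)) ^ (a + 1))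
        ≤ (1 / (n : ℝ)) ^ 2 * ((4 * (B : ℝ) ^ 2 * n) * (2 * Real.log N) ^ (a + 1)) :=
          mul_le_mul_of_nonneg_left h11 (by positivity)
      _ = (4 * (B : ℝ) ^ 2 * (2 * Real.log N) ^ (a + 1)) * (1 / (n : ℝ)) := by
          field_simp
  have hp0 : 0 ≤ (2 * Real.log N) ^ (a + 1) := Real.rpow_nonneg (by linarith) _
  calc ∑ n ∈ Icc 1 N, (1 / (n : ℝ)) ^ 2 * ((rad B n : ℝ) ^ 2 *
        (Real.log (2 + rad B n)) ^ (a + 1))
      ≤ ∑ n ∈ Icc 1 N, (4 * (B : ℝ) ^ 2 * (2 * Real.log N) ^ (a + 1)) * (1 / (n : ℝ)) :=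
        Finset.sum_le_sum hterm
    _ = (4 * (B : ℝ) ^ 2 * (2 * Real.log N) ^ (a + 1)) * ∑ n ∈ Icc 1 N, (1 / (n : ℝ)) := by
        rw [Finset.mul_sum]
    _ ≤ (4 * (B : ℝ) ^ 2 * (2 * Real.log N) ^ (a + 1)) * (2 * Real.log N) :=
        mul_le_mul_of_nonneg_left (harm_le N hN3) (by positivity)
    _ = 8 * (B : ℝ) ^ 2 * 2 ^ (a + 1) * (Real.log N) ^ (a + 2) := by
        have h12 : a + 2 = (a + 1) + 1 := by ring
        rw [Real.mul_rpow zero_le_two hL0, h12, Real.rpow_add_one hL1.ne' (a + 1)]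
        ring

end Pool.Agent.P8H83.LPB
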